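import Mathlib

namespace Pool.Agent.Results.MP_103265_nt.Necessary

/-- The `m`-gonal number with argument `x`. -/
def P (m x : ℤ) : ℤ := ((m - 2) * x ^ 2 - (m - 4) * x) / 2

/-- The generalized heptagonal number with argument `z`. -/
def G (z : ℤ) : ℤ := (5 * z ^ 2 - 3 * z) / 2

/-- `(j, k)` is universal. -/
def Universal (j k : ℕ) : Prop :=
  ∀ n : ℕ, ∃ (z : ℤ) (x y : ℕ), (n : ℤ) = G z + P j x + P k y

/-- The set `S` of the problem. -/
def InL (j k : ℕ) : Prop :=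
  (j = 3 ∧ ((3 ≤ k ∧ k ≤ 19) ∨ k ∈ [21, 22, 23, 24, 26, 27, 29, 30])) ∨
  (j = 4 ∧ ((4 ≤ k ∧ k ≤ 11) ∨ k ∈ [13, 14, 17, 19, 20, 23, 26])) ∨
  (j, k) ∈ [(5, 6), (5, 9), (6, 7), (8, 9)]

instance (j k : ℕ) : Decidable (InL j k) := by unfold InL; infer_instance

def Pn (m x : ℕ) : ℕ := x + (m - 2) * (x * (x - 1) / 2)

def gm : ℕ := 100120461139116314887279734951409672537373243960993484974153355057909846220043673789657697001918665132296302910096939224820734563024120394917762296324818311581525298407323357795672995138174119503452755057805933894112290410727894232516545904195985880765802257792230148050039982681625133148172152078346346355936372945760064667268540332211496897634795648648072169087731391294384322168944020436514295067878038585523652316191587400471694313469957970509949002358929914891662000024635734415505050214604947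

def chk (j k n : ℕ) : Bool :=
  (List.range 59).all fun x => decide (n < Pn j x) ||
    (List.range 59).all fun y => decide (n < Pn j x + Pn k y) ||
      !(gm.testBit (n - Pn j x - Pn k y))

def tab : List (List ℕ) :=
  [[0, 0, 0, 0, 0, 0, 0, 0, 0, 0, 0, 0, 0, 0, 0, 0, 0, 0, 0, 0, 51, 0, 0, 0, 0, 51, 0, 0, 131, 0, 0, 51, 274, 108, 0, 0, 0, 0, 0, 51, 0, 129, 51, 0, 108, 131, 1722, 923, 108, 156, 367, 108, 51],
   [0, 0, 0, 0, 0, 0, 0, 0, 0, 0, 0, 0, 45, 0, 0, 45, 211, 0, 42, 0, 0, 42, 61, 0, 45, 58, 0, 42, 58, 73, 42, 61, 73, 45, 58, 93, 42, 58, 0, 42, 61, 195, 45, 42, 42, 42, 42, 42, 42, 42, 42, 42, 42],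
   [0, 0, 0, 0, 0, 66, 0, 220, 11, 0, 21, 21, 11, 11, 11, 11, 11, 11, 11, 11, 11, 11, 11, 11, 11, 11, 11, 11, 11, 11, 11, 11, 11, 11, 11, 11, 11, 11, 11, 11, 11, 11, 11, 11, 11, 11, 11, 11, 11, 11, 11, 11, 11],
   [0, 0, 0, 0, 0, 0, 26, 0, 38, 12, 21, 89, 21, 12, 12, 12, 12, 12, 12, 12, 12, 12, 12, 12, 12, 12, 12, 12, 12, 12, 12, 12, 12, 12, 12, 12, 12, 12, 12, 12, 12, 12, 12, 12, 12, 12, 12, 12, 12, 12, 12, 12, 12],
   [0, 0, 0, 0, 0, 0, 0, 10, 17, 30, 16, 10, 10, 10, 10, 10, 10, 10, 10, 10, 10, 10, 10, 10, 10, 10, 10, 10, 10, 10, 10, 10, 10, 10, 10, 10, 10, 10, 10, 10, 10, 10, 10, 10, 10, 10, 10, 10, 10, 10, 10, 10, 10],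
   [0, 0, 0, 0, 0, 0, 0, 0, 11, 0, 30, 17, 11, 11, 11, 11, 11, 11, 11, 11, 11, 11, 11, 11, 11, 11, 11, 11, 11, 11, 11, 11, 11, 11, 11, 11, 11, 11, 11, 11, 11, 11, 11, 11, 11, 11, 11, 11, 11, 11, 11, 11, 11],
   [0, 0, 0, 0, 0, 0, 0, 0, 0, 12, 21, 41, 45, 12, 12, 12, 12, 12, 12, 12, 12, 12, 12, 12, 12, 12, 12, 12, 12, 12, 12, 12, 12, 12, 12, 12, 12, 12, 12, 12, 12, 12, 12, 12, 12, 12, 12, 12, 12, 12, 12, 12, 12],
   [0, 0, 0, 0, 0, 0, 0, 0, 0, 0, 16, 26, 21, 16, 26, 21, 22, 16, 16, 16, 16, 16, 16, 16, 16, 16, 16, 16, 16, 16, 16, 16, 16, 16, 16, 16, 16, 16, 16, 16, 16, 16, 16, 16, 16, 16, 16, 16, 16, 16, 16, 16, 16]]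

def w (j k : ℕ) : ℕ := (tab.getD (j - 3) []).getD k 0

lemma hP (m x : ℕ) (hm : 3 ≤ m) : P m x = (Pn m x : ℤ) := by
  obtain ⟨m, rfl⟩ : ∃ t, m = t + 2 := ⟨m - 2, by omega⟩
  have h := Nat.mul_div_cancel' (Nat.even_mul_pred_self x).two_dvd
  unfold P Pn
  rw [Nat.add_sub_cancel]
  generalize x * (x - 1) / 2 = t at h
  have h2 : (2 * t : ℤ) = x ^ 2 - x := by
    rcases x with _ | x
    · simp at h ⊢
      omega
    · rw [Nat.add_sub_cancel] at h
      have : ((2 * t : ℕ) : ℤ) = ((x + 1) * x : ℕ) := by rw [h]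
      push_cast at this ⊢
      linarith
  have : (((m + 2 : ℕ) : ℤ) - 2) * (x : ℤ) ^ 2 - (((m + 2 : ℕ) : ℤ) - 4) * x
      = 2 * ((x + m * t : ℕ) : ℤ) := by
    push_cast
    linear_combination (-(m : ℤ)) * h2
  rw [this]
  omega

lemma hG (z : ℤ) : 0 ≤ G z ∧ (G z ≤ 1722 → gm.testBit (G z).toNat = true) := by
  have h0 : 0 ≤ 5 * z ^ 2 - 3 * z := by nlinarith [sq_nonneg z, sq_nonneg (z - 1)]
  refine ⟨by unfold G; omega, fun h => ?_⟩
  have h1 : 5 * z ^ 2 - 3 * z ≤ 3445 := by unfold G at h; omega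
  have h2 : -26 ≤ z := by nlinarith
  have h3 : z ≤ 26 := by nlinarith
  revert h
  interval_cases z <;> decide +kernel

lemma hx (m x n : ℕ) (hm : 3 ≤ m) (hn : n ≤ 1722) (h : Pn m x ≤ n) : x < 59 := by
  by_contra hc
  have h1 : 59 * 58 ≤ x * (x - 1) := Nat.mul_le_mul (by omega) (by omega)
  have h2 : 1 * (x * (x - 1) / 2) ≤ (m - 2) * (x * (x - 1) / 2) :=
    Nat.mul_le_mul (by omega) le_rfl
  unfold Pn at h
  omega

lemma big (m m' x n : ℕ) (hm : n < m) (h : Pn m x ≤ n) : Pn m x = Pn m' x := by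
  have : x ≤ 1 := by
    by_contra hc
    have h1 : 2 * 1 ≤ x * (x - 1) := Nat.mul_le_mul (by omega) (by omega)
    have h2 : (m - 2) * 1 ≤ (m - 2) * (x * (x - 1) / 2) :=
      Nat.mul_le_mul le_rfl (by omega)
    unfold Pn at h
    omega
  interval_cases x <;> simp [Pn]

def Rep (j k n : ℕ) : Prop :=
  ∃ x y : ℕ, Pn j x + Pn k y ≤ n ∧ gm.testBit (n - Pn j x - Pn k y) = true

lemma rep_of (j k : ℕ) (hj : 3 ≤ j) (hk : 3 ≤ k) (h : Universal j k) (n : ℕ) (hn : n ≤ 1722) :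
    Rep j k n := by
  obtain ⟨z, x, y, h⟩ := h n
  rw [hP j x hj, hP k y hk] at h
  obtain ⟨h0, h1⟩ := hG z
  refine ⟨x, y, by omega, ?_⟩
  rw [show n - Pn j x - Pn k y = (G z).toNat by omega]
  exact h1 (by omega)

lemma not_rep (j k n : ℕ) (hj : 3 ≤ j) (hk : 3 ≤ k) (hn : n ≤ 1722) (h : chk j k n = true) :
    ¬ Rep j k n := by
  rintro ⟨x, y, h1, h2⟩
  have h3 := hx j x n hj hn (by omega)
  have h4 := hx k y n hk hn (by omega)
  simp only [chk, List.all_eq_true, List.mem_range, Bool.or_eq_true, decide_eq_true_eq] at h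
  rcases h x h3 with h | h
  · omega
  · rcases h y h4 with h | h
    · omega
    · simp [h2] at h

def ok (j k : ℕ) : Bool :=
  decide (j < 3) || decide (k < j) || decide (InL j k) || decide ((j, k) ∈ [(3, 34), (3, 35), (3, 36), (3, 37), (3, 38), (3, 40), (3, 43), (4, 38)]) ||
    (decide (w j k ≤ 1722) && (decide (k ≠ 52) || decide (w j k < 52)) && chk j k (w j k))

lemma main0 : ∀ j < 11, ∀ k < 53, ok j k = true := by
  decide +kernel

lemma main : ∀ j < 11, ∀ k < 53, 3 ≤ j → j ≤ k → InL j k ∨ ((j, k) ∈ [(3, 34), (3, 35), (3, 36), (3, 37), (3, 38), (3, 40), (3, 43), (4, 38)]) ∨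
    (w j k ≤ 1722 ∧ (k = 52 → w j k < 52) ∧ chk j k (w j k) = true) := by
  intro j hj k hk h3 hjk
  have h := main0 j hj k hk
  simp only [ok, Bool.or_eq_true, Bool.and_eq_true, decide_eq_true_eq] at h
  rcases h with (((h | h) | h) | h) | ⟨⟨h1, h2⟩, h4⟩
  · omega
  · omega
  · exact Or.inl h
  · exact Or.inr (Or.inl h)
  · exact Or.inr (Or.inr ⟨h1, fun hK => h2.resolve_left (fun h => h hK), h4⟩)

theorem result : ∀ j k : ℕ, 3 ≤ j → j ≤ k → Universal j k → InL j k ∨ ((j, k) ∈ [(3, 34), (3, 35), (3, 36), (3, 37), (3, 38), (3, 40), (3, 43), (4, 38)]) := by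
  intro j k hj hjk h
  by_cases h11 : j < 11
  · by_cases hK : k < 53
    · rcases main j h11 k hK hj hjk with h1 | h1 | ⟨h1, -, h2⟩
      · exact Or.inl h1
      · exact Or.inr h1
      · exact (not_rep j k _ hj (by omega) h1 h2 (rep_of j k hj (by omega) h _ h1)).elim
    · exfalso
      rcases main j h11 52 (by omega) hj (by omega) with h1 | h1 | ⟨h1, h3, h2⟩
      · revert h1
        interval_cases j <;> decide
      · revert h1
        interval_cases j <;> decide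
      · have h4 := h3 rfl
        obtain ⟨x, y, a, b⟩ := rep_of j k hj (by omega) h _ h1
        have e := big k 52 y (w j 52) (by omega) (by omega)
        rw [e] at a b
        exact not_rep j 52 _ hj (by omega) h1 h2 ⟨x, y, a, b⟩
  · exfalso
    obtain ⟨x, y, a, b⟩ := rep_of j k hj (by omega) h 10 (by omega)
    have e1 := big k 11 y 10 (by omega) (by omega)
    have e2 := big j 11 x 10 (by omega) (by omega)
    rw [e1, e2] at a b
    exact not_rep 11 11 10 (by omega) (by omega) (by omega) (by decide +kernel) ⟨x, y, a, b⟩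

end Pool.Agent.Results.MP_103265_nt.Necessary
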